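import Pool.Agent.H6.N4D.TC

/-!
# Generic rotations visit all arcs (row EQD)
-/

set_option autoImplicit false

open Finset

namespace Pool.Agent.H5.N4D

open Pool.Agent.H6.N4D

/-- the primitive of the periodic indicator function of `[0, c]` -/
noncomputable def prm (c u : ℝ) : ℝ := c * ⌊u⌋ + min (Int.fract u) c

/-- its periodic part -/
noncomputable def prg (c u : ℝ) : ℝ := min (Int.fract u) c - c * Int.fract u

theorem prm_eq (c u : ℝ) : prm c u = prg c u + c * u := by
  unfold prm prg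
  have h := Int.floor_add_fract u
  have h2 : c * (⌊u⌋ : ℝ) + c * Int.fract u = c * u := by rw [← mul_add, h]
  linarith

theorem prg_add_int (c u : ℝ) (k : ℤ) : prg c (u + k) = prg c u := by
  unfold prg
  rw [Int.fract_add_intCast]

theorem abs_prg_le (c u : ℝ) (h0 : 0 ≤ c) (h1 : c ≤ 1) : |prg c u| ≤ 1 := by
  unfold prg
  have h2 := Int.fract_nonneg u
  have h3 := (Int.fract_lt_one u).le
  have h4 : 0 ≤ c * Int.fract u := mul_nonneg h0 h2
  have h5 : c * Int.fract u ≤ 1 := by nlinarith
  have h6 : 0 ≤ min (Int.fract u) c := le_min h2 h0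
  have h7 : min (Int.fract u) c ≤ 1 := (min_le_right _ _).trans h1
  rw [abs_le]
  constructor <;> linarith

theorem prm_of_mem (c v : ℝ) (n : ℤ) (h0 : 0 ≤ c) (h1 : c ≤ 1) (hn : (n : ℝ) ≤ v)
    (hv : v ≤ n + 1) : prm c v = c * n + min (v - n) c := by
  rcases hv.lt_or_eq with h | h
  · have hf : ⌊v⌋ = n := Int.floor_eq_iff.2 ⟨hn, h⟩
    unfold prm
    rw [← Int.self_sub_floor, hf]
  · have hf : ⌊v⌋ = n + 1 := by
      rw [h]
      exact_mod_cast Int.floor_intCast (n + 1)
    unfold prm
    rw [← Int.self_sub_floor, hf, h]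
    push_cast
    rw [show (n : ℝ) + 1 - (n + 1) = 0 by ring, show (n : ℝ) + 1 - n = 1 by ring,
      min_eq_left h0, min_eq_right h1]
    ring

theorem prm_step (w v d : ℝ) (hw : 0 < w) (hw1 : w ≤ 1 / 4) (hd : 0 ≤ d) (hd1 : d ≤ w / 4) :
    0 ≤ prm (3 / 2 * w) (v + d) - prm (3 / 2 * w) v ∧
    prm (3 / 2 * w) (v + d) - prm (3 / 2 * w) v ≤ d ∧
    (prm (3 / 2 * w) (v + d) ≠ prm (3 / 2 * w) v →
      ∃ n : ℤ, (n : ℝ) - w / 4 ≤ v ∧ v + d ≤ n + 3 / 2 * w + w / 4) := by
  set c := 3 / 2 * w with hc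
  have hc0 : 0 ≤ c := by positivity
  have hc1 : c ≤ 1 := by linarith
  set n := ⌊v⌋ with hn
  have h1 : (n : ℝ) ≤ v := Int.floor_le v
  have h2 : v < n + 1 := Int.lt_floor_add_one v
  have e1 := prm_of_mem c v n hc0 hc1 h1 h2.le
  rcases le_or_gt (v + d) (n + 1) with h | h
  · have e2 := prm_of_mem c (v + d) n hc0 hc1 (by linarith) h
    rw [e1, e2]
    refine ⟨?_, ?_, ?_⟩
    · have : min (v - n) c ≤ min (v + d - n) c := min_le_min_right _ (by linarith)
      linarith
    · have : min (v + d - n) c ≤ min (v - n) c + d := by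
        rcases le_total (v - n) c with h3 | h3
        · rw [min_eq_left h3]
          exact (min_le_left _ _).trans (by linarith)
        · rw [min_eq_right h3]
          exact (min_le_right _ _).trans (by linarith)
      linarith
    · intro hne
      refine ⟨n, by linarith, ?_⟩
      by_contra hcon
      push Not at hcon
      apply hne
      rw [min_eq_right (by linarith), min_eq_right (by linarith)]
  · have e2 := prm_of_mem c (v + d) (n + 1) hc0 hc1 (by push_cast; linarith)
      (by push_cast; linarith)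
    rw [e1, e2, min_eq_right (show c ≤ v - n by linarith)]
    push_cast
    have h5 : min (v + d - (n + 1)) c ≤ d := (min_le_left _ _).trans (by linarith)
    have h6 : 0 ≤ min (v + d - (n + 1)) c := le_min (by linarith) hc0
    refine ⟨by linarith, by linarith, fun _ => ⟨n + 1, ?_, ?_⟩⟩
    · push_cast
      linarith
    · push_cast
      linarith

theorem sum_shift (a : ℕ → ℝ) (ha : ∀ j, |a j| ≤ 1) (N q : ℕ) :
    |∑ j ∈ range N, (a (j + q) - a j)| ≤ 2 * q := by
  have h1 := Finset.sum_range_add a N q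
  have h2 := Finset.sum_range_add a q N
  rw [add_comm q N] at h2
  have h3 : ∑ j ∈ range N, (a (j + q) - a j) =
      ∑ j ∈ range q, a (N + j) - ∑ j ∈ range q, a j := by
    rw [sum_sub_distrib]
    have : ∑ j ∈ range N, a (j + q) = ∑ j ∈ range N, a (q + j) :=
      sum_congr rfl fun j _ => by rw [add_comm]
    rw [this]
    linarith
  rw [h3]
  have h4 : |∑ j ∈ range q, a (N + j)| ≤ q := by
    refine (abs_sum_le_sum_abs _ _).trans ?_
    refine (sum_le_sum fun j _ => ha (N + j)).trans ?_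
    simp
  have h5 : |∑ j ∈ range q, a j| ≤ q := by
    refine (abs_sum_le_sum_abs _ _).trans ?_
    refine (sum_le_sum fun j _ => ha j).trans ?_
    simp
  rw [abs_le] at h4 h5 ⊢
  constructor <;> linarith [h4.1, h4.2, h5.1, h5.2]

theorem sum_Icc_one (f : ℕ → ℝ) (N : ℕ) :
    ∑ j ∈ Icc 1 N, f j = ∑ j ∈ range N, f (j + 1) := by
  induction N with
  | zero => simp
  | succ n ih => rw [sum_Icc_succ_top (by omega), ih, sum_range_succ]

open Classical in
theorem pf_EQD : T_EQD := by
  intro w hw hw1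
  refine ⟨⌈4 / w⌉₊ + 1, fun η hη => ⟨⌈4 * ((⌈4 / w⌉₊ + 1 : ℕ) : ℝ) / (w * η)⌉₊,
    fun N hN α β y hq => ?_⟩⟩
  set Q := ⌈4 / w⌉₊ + 1 with hQ
  obtain ⟨q, hq0, hqQ, hq1⟩ := Real.exists_nat_abs_mul_sub_round_le α (n := Q) (by omega)
  have hs := hq q hq0 hqQ
  unfold nd at hs
  set δ := (q : ℝ) * α - round ((q : ℝ) * α) with hδ
  set c := 3 / 2 * w with hc
  have hc0 : 0 ≤ c := by positivity
  have hc1 : c ≤ 1 := by linarith
  have hδ1 : |δ| ≤ w / 4 := by
    refine hq1.trans ?_
    have h1 : 4 / w ≤ (Q : ℝ) := by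
      rw [hQ]
      push_cast
      linarith [Nat.le_ceil (4 / w)]
    rw [div_le_div_iff₀ (by positivity) (by norm_num)]
    rw [div_le_iff₀ hw] at h1
    nlinarith
  -- the points
  set u : ℕ → ℝ := fun j => α * j + β - y - w / 4 with hu
  set a : ℕ → ℝ := fun j => prg c (u (j + 1)) with ha
  have hshift : ∀ j, a (j + q) = prg c (u (j + 1) + δ) := by
    intro j
    simp only [ha, hu]
    have : α * ((j + q + 1 : ℕ) : ℝ) + β - y - w / 4 =
        (α * ((j + 1 : ℕ) : ℝ) + β - y - w / 4 + δ) + (round ((q : ℝ) * α) : ℤ) := by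
      rw [hδ]
      push_cast
      ring
    rw [this, prg_add_int]
  have hsum := sum_shift a (fun j => abs_prg_le c _ hc0 hc1) N q
  set P : ℕ → Prop := fun j => ∃ k : ℤ, y ≤ α * j + β + k ∧ α * j + β + k ≤ y + 2 * w with hP
  have hone : ∀ v d : ℝ, 0 ≤ d → d ≤ w / 4 → ∀ j : ℕ, (u j = v ∨ u j = v + d) →
      prm c (v + d) - prm c v ≤ d * (if P j then 1 else 0) := by
    intro v d hd hd1 j hj
    obtain ⟨h1, h2, h3⟩ := prm_step w v d hw hw1 hd hd1
    split_ifs with hPj
    · linarith
    · rw [mul_zero]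
      by_contra hcon
      push Not at hcon
      have hne : prm (3 / 2 * w) (v + d) ≠ prm (3 / 2 * w) v := by
        intro he
        rw [← hc] at he
        linarith
      obtain ⟨n, hn1, hn2⟩ := h3 hne
      apply hPj
      refine ⟨-n, ?_, ?_⟩
      · rcases hj with hj | hj <;> simp only [hu] at hj <;> push_cast <;> linarith
      · rcases hj with hj | hj <;> simp only [hu] at hj <;> push_cast <;> linarith
  have hcard : (((Icc 1 N).filter P).card : ℝ) =
      ∑ j ∈ range N, (if P (j + 1) then (1 : ℝ) else 0) := by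
    rw [card_filter]
    push_cast
    exact sum_Icc_one (fun j => if P j then (1 : ℝ) else 0) N
  have hkey : c * |δ| * N - 2 * q ≤ |δ| * (((Icc 1 N).filter P).card : ℝ) := by
    rw [hcard, mul_sum]
    rw [abs_le] at hsum
    rcases le_total 0 δ with hpos | hneg
    · rw [abs_of_nonneg hpos] at hδ1 ⊢
      have h1 : ∑ j ∈ range N, (a (j + q) - a j + c * δ) ≤
          ∑ j ∈ range N, δ * (if P (j + 1) then (1 : ℝ) else 0) := by
        refine sum_le_sum fun j _ => ?_
        have h2 := hone (u (j + 1)) δ hpos hδ1 (j + 1) (Or.inl rfl)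
        rw [prm_eq, prm_eq] at h2
        rw [hshift]
        simp only [ha]
        linarith
      rw [sum_add_distrib, sum_const, card_range, nsmul_eq_mul] at h1
      linarith [hsum.1]
    · rw [abs_of_nonpos hneg] at hδ1 ⊢
      have h1 : ∑ j ∈ range N, (-(a (j + q) - a j) + c * (-δ)) ≤
          ∑ j ∈ range N, (-δ) * (if P (j + 1) then (1 : ℝ) else 0) := by
        refine sum_le_sum fun j _ => ?_
        have h2 := hone (u (j + 1) + δ) (-δ) (by linarith) hδ1 (j + 1) (Or.inr (by ring))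
        rw [prm_eq, prm_eq, show u (j + 1) + δ + -δ = u (j + 1) by ring] at h2
        rw [hshift]
        simp only [ha]
        linarith
      rw [sum_add_distrib, sum_const, card_range, nsmul_eq_mul, sum_neg_distrib] at h1
      linarith [hsum.2]
  have hN1 : 4 * (Q : ℝ) / (w * η) ≤ N := (Nat.le_ceil _).trans (by exact_mod_cast hN)
  rw [div_le_iff₀ (by positivity)] at hN1
  have hqQ' : (q : ℝ) ≤ Q := by exact_mod_cast hqQ
  have hδ0 : 0 < |δ| := lt_of_lt_of_le hη hs
  have h3 : |δ| * (w * N) ≤ |δ| * (((Icc 1 N).filter P).card : ℝ) := by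
    refine le_trans ?_ hkey
    have h4 : 2 * (q : ℝ) ≤ |δ| * (w / 2 * N) := by
      have h5 : η * (w / 2 * N) ≤ |δ| * (w / 2 * N) :=
        mul_le_mul_of_nonneg_right hs (by positivity)
      nlinarith
    rw [hc]
    nlinarith
  exact le_of_mul_le_mul_left h3 hδ0

end Pool.Agent.H5.N4D
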